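import Pool.Agent.H1.SlitE

namespace Pool.Agent.Results.MP_70d5b9_an.Value

open Set Complex Pool.Agent.H1.Slit

/-- Wherever the slit `γ` has a tangent, its direction makes an angle at most `α π / 2` with the
radial direction. -/
def Angle (α : ℝ) (γ : ℝ → ℂ) : Prop :=
  ∀ t : ℝ, 0 < t → DifferentiableAt ℝ γ t → deriv γ t ≠ 0 →
    |arg (deriv γ t / γ t)| ≤ α * Real.pi / 2

theorem result (α : ℝ) (h0 : 0 < α) (h1 : α ≤ 1) :
    IsLUB {x : ℝ | ∃ f γ φ, SlitMap f γ φ ∧ Angle α γ ∧ x = |φ|} (α * Real.pi) ∧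
    ∀ φ ∈ Ioo (-Real.pi) Real.pi, |φ| ≤ α * Real.pi → ∃ f γ, SlitMap f γ φ ∧ Angle α γ ∧
      ∀ t : ℝ, AnalyticAt ℝ γ t ∧ deriv γ t ≠ 0 := by
  have p := Real.pi_pos
  have key : ∀ φ ∈ Ioo (-Real.pi) Real.pi, |φ| ≤ α * Real.pi → ∃ f γ, SlitMap f γ φ ∧ Angle α γ ∧
      ∀ t : ℝ, AnalyticAt ℝ γ t ∧ deriv γ t ≠ 0 := fun φ h k => by
    obtain ⟨a, b⟩ := spiral h
    refine ⟨_, _, a, fun t _ _ _ => ?_, fun t => ⟨(b t).1, (b t).2 ▸
      mul_ne_zero (exp_ne_zero _) (exp_ne_zero _)⟩⟩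
    rw [(b t).2, mul_div_cancel_left₀ _ (exp_ne_zero _), ← log_im,
      log_exp (by simp; linarith [h.2]) (by simp; linarith [h.1])]
    simp [abs_div]; linarith
  refine ⟨⟨?_, fun b hb => ?_⟩, key⟩
  · rintro _ ⟨f, γ, φ, h, k, rfl⟩
    exact (upper h (by positivity) k).trans_eq (by ring)
  refine le_of_forall_lt_imp_le_of_dense fun x hx => ?_
  have q : max x 0 < α * Real.pi := max_lt hx (by positivity)
  obtain ⟨f, γ, h1, h2, -⟩ := key (max x 0) ⟨lt_max_of_lt_right (neg_lt_zero.2 p), by nlinarith⟩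
    (by rw [abs_of_nonneg (le_max_right _ _)]; exact q.le)
  exact ((le_max_left x 0).trans (le_abs_self _)).trans (hb ⟨f, γ, _, h1, h2, rfl⟩)

end Pool.Agent.Results.MP_70d5b9_an.Value
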